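import Pool.Agent.H83.LS.Targets3

/-! Modules SPL, POL of ls_modules (MP_ee74d2_an): splitting of `ℝ^(n+1)`, integration of axially
symmetric functions. -/

set_option autoImplicit false

open MeasureTheory Set Pool.Agent.H83.LS
open scoped ENNReal NNReal

namespace Pool.Agent.H87.LS

/-- the splitting -/
noncomputable def spl (n : ℕ) : EE n × ℝ ≃ᵐ EE (n + 1) :=
  (((MeasurableEquiv.toLp 2 (Fin n → ℝ)).symm.prodCongr (MeasurableEquiv.refl ℝ)).trans
    (MeasurableEquiv.prodComm)).trans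
    ((MeasurableEquiv.piFinSuccAbove (fun _ : Fin (n + 1) => ℝ) (Fin.last n)).symm.trans
      (MeasurableEquiv.toLp 2 (Fin (n + 1) → ℝ)))

theorem spl_last (n : ℕ) (y : EE n) (z : ℝ) : (spl n (y, z)) (Fin.last n) = z := by
  show (Fin.insertNth (α := fun _ : Fin (n + 1) => ℝ) (Fin.last n) z (fun i => y i)) (Fin.last n) = z
  simp

theorem spl_castSucc (n : ℕ) (y : EE n) (z : ℝ) (i : Fin n) :
    (spl n (y, z)) (Fin.castSucc i) = y i := by
  show (Fin.insertNth (α := fun _ : Fin (n + 1) => ℝ) (Fin.last n) z (fun i => y i))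
    (Fin.castSucc i) = y i
  simp

theorem spl_mp (n : ℕ) : MeasurePreserving (spl n) := by
  have h1 : MeasurePreserving ((MeasurableEquiv.toLp 2 (Fin n → ℝ)).symm.prodCongr
      (MeasurableEquiv.refl ℝ)) (volume : Measure (EE n × ℝ)) volume :=
    (EuclideanSpace.volume_preserving_symm_measurableEquiv_toLp (Fin n)).prod
      (MeasurePreserving.id volume)
  have h2 : MeasurePreserving (MeasurableEquiv.prodComm : (Fin n → ℝ) × ℝ ≃ᵐ ℝ × (Fin n → ℝ))
      volume volume := Measure.measurePreserving_swap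
  have h3 := (volume_preserving_piFinSuccAbove (fun _ : Fin (n + 1) => ℝ) (Fin.last n)).symm
  have h4 := (EuclideanSpace.volume_preserving_symm_measurableEquiv_toLp (Fin (n + 1))).symm
  exact (h4.comp h3).comp (h2.comp h1)

theorem spl_inner (n : ℕ) (y y' : EE n) (z z' : ℝ) :
    inner ℝ (spl n (y, z)) (spl n (y', z')) = inner ℝ y y' + z * z' := by
  rw [PiLp.inner_apply, PiLp.inner_apply, Fin.sum_univ_castSucc, spl_last, spl_last]
  congr 1
  · refine Finset.sum_congr rfl fun i _ => ?_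
    rw [spl_castSucc, spl_castSucc]
  · simp [mul_comm]

theorem spl_proof : T_SPL := fun n => ⟨spl n, spl_mp n, spl_last n, spl_inner n⟩

theorem pol_proof (hS : T_SPL) (hR : T_RF) : T_POL := by
  intro n hn
  obtain ⟨Φ, hΦ, hlast, hinner⟩ := hS n
  obtain ⟨c, hc, h1, -⟩ := hR n hn
  have hpos : 0 < ∫ φ in (0 : ℝ)..Real.pi, Real.sin φ ^ (n - 2) := integral_sin_pow_pos _
  refine ⟨c * ∫ φ in (0 : ℝ)..Real.pi, Real.sin φ ^ (n - 2), mul_pos hc hpos, ?_⟩
  intro h hh
  have hnorm : ∀ (y : EE n) (z : ℝ), ‖Φ (y, z)‖ ^ 2 = ‖y‖ ^ 2 + z ^ 2 := by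
    intro y z
    rw [← real_inner_self_eq_norm_sq, hinner, real_inner_self_eq_norm_sq]
    ring
  have hhor : ∀ (y : EE n) (z : ℝ), hor (Φ (y, z)) = ‖y‖ := by
    intro y z
    unfold hor
    rw [hnorm, hlast, add_sub_cancel_right, Real.sqrt_sq (norm_nonneg _)]
  have e1 : ∫⁻ x : EE (n + 1), h (hor x, x (Fin.last n)) =
      ∫⁻ p : EE n × ℝ, h (‖p.1‖, p.2) := by
    rw [← hΦ.lintegral_comp_emb Φ.measurableEmbedding]
    refine lintegral_congr fun p => ?_
    obtain ⟨y, z⟩ := p
    rw [hhor, hlast]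
  rw [e1, Measure.volume_eq_prod, lintegral_prod_symm]
  · rw [← lintegral_const_mul']
    · refine lintegral_congr fun z => ?_
      exact h1 (fun ρ => h (ρ, z)) (hh.comp (measurable_id.prodMk measurable_const))
    · exact ENNReal.ofReal_ne_top
  · exact (hh.comp ((measurable_norm.comp measurable_fst).prodMk measurable_snd)).aemeasurable

end Pool.Agent.H87.LS
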